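import Pool.Agent.U463.NS.Det

/-!
Natural and logarithmic averages over the windows of the suprema over families of sequences, for the
sequences whose signs are normal relative to a set.
-/

set_option autoImplicit false
set_option linter.unusedSectionVars false

open Filter Topology Finset

namespace Pool.Agent.U463.NS

open Pool.Agent.U585.SI (Tame fam Good sg big big_card log_bound)

/-- the choice of the length of the blocks -/
lemma exists_len {e : ℝ} (he : 0 < e) : ∀ᶠ k : ℕ in atTop,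
    4 * Real.exp (-(e ^ 2 / 16 * k)) ≤ (e / k) / 2 := by
  have h1 : Tendsto (fun k : ℕ => (k : ℝ) * Real.exp (-(e ^ 2 / 16 * k))) atTop (𝓝 0) := by
    have h2 : Tendsto (fun x : ℝ => x ^ 1 * Real.exp (-(e ^ 2 / 16) * x)) atTop (𝓝 0) := by
      have h3 := Real.tendsto_pow_mul_exp_neg_atTop_nhds_zero 1
      have h4 : Tendsto (fun x : ℝ => e ^ 2 / 16 * x) atTop atTop :=
        tendsto_id.const_mul_atTop (by positivity)
      have h5 := (h3.comp h4).const_mul (1 / (e ^ 2 / 16))
      rw [mul_zero] at h5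
      refine h5.congr fun x => ?_
      simp only [Function.comp_apply, pow_one]
      have : (e ^ 2 / 16 : ℝ) ≠ 0 := by positivity
      rw [neg_mul]
      field_simp
    have h6 := h2.comp tendsto_natCast_atTop_atTop
    refine h6.congr fun k => ?_
    simp only [Function.comp_apply, pow_one]
    rw [neg_mul]
  have h2 := h1.eventually (gt_mem_nhds (show (0 : ℝ) < e / 8 by positivity))
  filter_upwards [h2, eventually_gt_atTop 0] with k hk hk0
  have hk0' : (0 : ℝ) < k := by exact_mod_cast hk0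
  rw [div_div, le_div_iff₀ (by positivity)]
  nlinarith

open Classical in
/-- **Natural averages.** -/
theorem natural {S : Set ℕ} {F : ℕ → ℝ} (hF : ∀ n, F n = 1 ∨ F n = -1) (hN : Normal S F)
    {K : Set (ℕ → ℂ)} (hK : Tame K) (ε : ℝ) (hε : 0 < ε) : ∃ H₀ : ℕ, ∀ N H : ℕ, H₀ ≤ H → 1 ≤ N →
      ∑ n ∈ Icc 1 N, supW K (on S F) n H ≤ ε * H * N := by
  obtain ⟨e, hedef⟩ : ∃ e : ℝ, e = ε / 5 := ⟨_, rfl⟩
  have he : 0 < e := by rw [hedef]; positivity
  obtain ⟨δ, hδdef⟩ : ∃ δ : ℝ, δ = min e (e ^ 2 / 16) := ⟨_, rfl⟩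
  have hδ : 0 < δ := by rw [hδdef]; exact lt_min he (by positivity)
  have hδe : δ ≤ e := by rw [hδdef]; exact min_le_left _ _
  have hδ2 : δ ≤ e ^ 2 / 16 := by rw [hδdef]; exact min_le_right _ _
  obtain ⟨k₀, hk₀⟩ := hK.cover δ hδ
  obtain ⟨k, hkk, hk1, hkexp⟩ := ((eventually_ge_atTop k₀).and ((eventually_ge_atTop 1).and
    (exists_len he))).exists
  obtain ⟨W, hWc, hW1, hWK⟩ := hk₀ k hkk
  have hk0 : (0 : ℝ) < k := by exact_mod_cast hk1
  have hk1' : (1 : ℝ) ≤ k := by exact_mod_cast hk1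
  have hc : 0 < e / k := by positivity
  have hcard : (W.card : ℝ) * (4 * Real.exp (-((e * k) ^ 2 / (8 * k)))) ≤ (e / k) / 2 := by
    refine le_trans ?_ hkexp
    have h1 : (e * k) ^ 2 / (8 * (k : ℝ)) = e ^ 2 / 8 * k := by field_simp
    rw [h1]
    have h2 : Real.exp (δ * k) * Real.exp (-(e ^ 2 / 8 * k)) ≤ Real.exp (-(e ^ 2 / 16 * k)) := by
      rw [← Real.exp_add]
      apply Real.exp_le_exp.2
      have := mul_le_mul_of_nonneg_right hδ2 hk0.le
      linarith
    have h3 := mul_le_mul_of_nonneg_right hWc (Real.exp_pos (-(e ^ 2 / 8 * k))).le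
    nlinarith
  obtain ⟨X₀, hX₀⟩ := eventually_atTop.1
    (count_bad hN hk1 W hW1 (t := e * k) (by positivity) hc hcard)
  refine ⟨max X₀ ⌈(k : ℝ) / e⌉₊, fun N H hH hN1 => ?_⟩
  have hHX : X₀ ≤ H := le_trans (le_max_left _ _) hH
  have hHk : (k : ℝ) ≤ e * H := by
    have h1 : (k : ℝ) / e ≤ H := (Nat.le_ceil _).trans
      (by exact_mod_cast le_trans (le_max_right _ _) hH)
    rw [div_le_iff₀ he] at h1
    linarith
  have hH0 : (0 : ℝ) ≤ H := Nat.cast_nonneg H
  have hqH : ((H / k : ℕ) : ℝ) * k ≤ H := by exact_mod_cast Nat.div_mul_le_self H k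
  have hN0 : (0 : ℝ) < N := by exact_mod_cast hN1
  obtain ⟨cb, hcb⟩ : ∃ cb : ℕ → ℝ, cb = fun n =>
    (((range (H / k)).filter fun b => Bd S F W (e * k) k (n + b * k)).card : ℝ) := ⟨_, rfl⟩
  have hpt : ∀ n, supW K (on S F) n H ≤ 3 * e * H + k * cb n := by
    intro n
    have h1 := window_bound (S := S) hF hK hW1 hk1 hδ.le (t := e * k) (by positivity) hWK n H
    have h2 : (e * k + δ * k) * ((H / k : ℕ) : ℝ) ≤ 2 * e * H := by
      have h3 : (e * k + δ * k) * ((H / k : ℕ) : ℝ) = (e + δ) * (((H / k : ℕ) : ℝ) * k) := by ring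
      rw [h3]
      have h4 : 0 ≤ ((H / k : ℕ) : ℝ) * k := by positivity
      calc (e + δ) * (((H / k : ℕ) : ℝ) * k) ≤ (2 * e) * (((H / k : ℕ) : ℝ) * k) :=
            mul_le_mul_of_nonneg_right (by linarith) h4
        _ ≤ 2 * e * H := mul_le_mul_of_nonneg_left hqH (by positivity)
    rw [hcb]
    simp only
    linarith
  refine (sum_le_sum fun n _ => hpt n).trans ?_
  rw [sum_add_distrib, sum_const, nsmul_eq_mul, Nat.card_Icc, Nat.add_sub_cancel, ← mul_sum]
  have hmain : (k : ℝ) * ∑ n ∈ Icc 1 N, cb n ≤ 2 * e * H * N := by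
    rcases le_or_gt H N with hHN | hHN
    · -- many windows
      have h1 : ∑ n ∈ Icc 1 N, cb n = ∑ b ∈ range (H / k),
          (((Icc 1 N).filter fun n => Bd S F W (e * k) k (n + b * k)).card : ℝ) := by
        rw [hcb]
        simp only
        simp_rw [card_filter]
        push_cast
        rw [sum_comm]
      have h2 : ∀ b ∈ range (H / k),
          (((Icc 1 N).filter fun n => Bd S F W (e * k) k (n + b * k)).card : ℝ) ≤
            e / k * (2 * N) := by
        intro b hb
        rw [mem_range] at hb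
        have hbk : b * k ≤ H := by
          have h3 : b * k ≤ (H / k) * k := Nat.mul_le_mul_right k hb.le
          exact h3.trans (Nat.div_mul_le_self H k)
        have h3 := hX₀ (2 * N) (by omega)
        push_cast at h3
        refine le_trans ?_ h3
        have h4 : ((Icc 1 N).filter fun n => Bd S F W (e * k) k (n + b * k)).card ≤
            ((Icc 1 (2 * N)).filter fun n => Bd S F W (e * k) k n).card := by
          refine card_le_card_of_injOn (fun n => n + b * k) ?_ ?_
          · intro n hn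
            simp only [coe_filter, Set.mem_ofPred_eq, mem_Icc] at hn ⊢
            exact ⟨⟨by omega, by omega⟩, hn.2⟩
          · intro n _ n' _ h
            simp only at h
            omega
        exact_mod_cast h4
      rw [h1]
      have h3 := sum_le_sum h2
      rw [sum_const, card_range, nsmul_eq_mul] at h3
      calc (k : ℝ) * ∑ b ∈ range (H / k),
            (((Icc 1 N).filter fun n => Bd S F W (e * k) k (n + b * k)).card : ℝ) ≤
            k * (((H / k : ℕ) : ℝ) * (e / k * (2 * N))) := mul_le_mul_of_nonneg_left h3 hk0.le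
        _ = (((H / k : ℕ) : ℝ)) * (2 * e * N) := by field_simp
        _ ≤ H * (2 * e * N) := by
            refine mul_le_mul_of_nonneg_right ?_ (by positivity)
            nlinarith [Nat.cast_nonneg (α := ℝ) (H / k)]
        _ = _ := by ring
    · -- few windows
      have h1 : ∀ n ∈ Icc 1 N, cb n ≤ e / k * (2 * H) := by
        intro n hn
        rw [mem_Icc] at hn
        have h3 := hX₀ (2 * H) (by omega)
        push_cast at h3
        refine le_trans ?_ h3
        rw [hcb]
        simp only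
        have h4 : ((range (H / k)).filter fun b => Bd S F W (e * k) k (n + b * k)).card ≤
            ((Icc 1 (2 * H)).filter fun n => Bd S F W (e * k) k n).card := by
          refine card_le_card_of_injOn (fun b => n + b * k) ?_ ?_
          · intro b hb
            simp only [coe_filter, Set.mem_ofPred_eq, mem_Icc, mem_range] at hb ⊢
            have hbk : b * k ≤ H := by
              have h3 : b * k ≤ (H / k) * k := Nat.mul_le_mul_right k hb.1.le
              exact h3.trans (Nat.div_mul_le_self H k)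
            exact ⟨⟨by omega, by omega⟩, hb.2⟩
          · intro b _ b' _ h
            simp only at h
            have h5 : b * k = b' * k := by omega
            exact Nat.eq_of_mul_eq_mul_right hk1 h5
        exact_mod_cast h4
      have h2 := sum_le_sum h1
      rw [sum_const, nsmul_eq_mul, Nat.card_Icc, Nat.add_sub_cancel] at h2
      calc (k : ℝ) * ∑ n ∈ Icc 1 N, cb n ≤ k * (N * (e / k * (2 * H))) :=
            mul_le_mul_of_nonneg_left h2 hk0.le
        _ = _ := by field_simp
  have h5 : ε = 5 * e := by rw [hedef]; ring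
  rw [h5]
  nlinarith

/-- **Natural and logarithmic averages.** -/
theorem averages {S : Set ℕ} {F : ℕ → ℝ} (hF : ∀ n, F n = 1 ∨ F n = -1) (hN : Normal S F)
    {K : Set (ℕ → ℂ)} (hK : Tame K) (ε : ℝ) (hε : 0 < ε) : ∃ H₀ : ℕ, ∀ N H : ℕ, H₀ ≤ H → 1 ≤ N →
      ∑ n ∈ Icc 1 N, supW K (on S F) n H ≤ ε * H * N ∧
      (H ≤ N → ∑ n ∈ Icc 1 N, (1 / (n : ℝ)) * supW K (on S F) n H ≤ ε * H * Real.log N) := by
  obtain ⟨H₀, hH₀⟩ := natural hF hN hK (ε / 3) (by positivity)
  refine ⟨max H₀ 8, fun N H hH hN => ⟨?_, fun hHN => ?_⟩⟩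
  · refine (hH₀ N H (by omega) hN).trans ?_
    have : (0 : ℝ) ≤ H * N := by positivity
    nlinarith
  · have h1 := log_bound (fun n => supW K (on S F) n H) (ε / 3 * H) (fun n hn => by
      rw [Real.norm_eq_abs, abs_of_nonneg (Finset.sum_nonneg fun _ _ => supW_nonneg _ _ _ _)]
      exact hH₀ n H (by omega) hn) N hN
    simp only [smul_eq_mul] at h1
    have h2 := (le_abs_self _).trans h1
    refine h2.trans ?_
    have h3 : (2 : ℝ) ≤ 2 * Real.log N := by
      have h4 : (1 : ℝ) ≤ Real.log N := by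
        rw [Real.le_log_iff_exp_le (by exact_mod_cast hN)]
        have h5 := Real.exp_one_lt_d9
        have h6 : (8 : ℝ) ≤ N := by exact_mod_cast (by omega : 8 ≤ N)
        linarith
      linarith
    have h4 : 0 ≤ ε / 3 * H := by positivity
    nlinarith

/-- the sum over the window `(a, a + H]` -/
noncomputable def wsum {Z : Type} (r : ℕ → ℝ) (G : Z → ℕ → ℂ) (z : Z) (a H : ℕ) : ℂ :=
  ∑ n ∈ Finset.Ioc a (a + H), G z (n - a - 1) * ((r n : ℝ) : ℂ)

lemma wsum_fam {Z : Type} (r : ℕ → ℝ) (g : Z → ℕ → ℂ) {M : ℝ} (hM : 0 < M) (z : Z) (a H : ℕ) :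
    ‖wsum r g z a H‖ = M * ‖ws (fun i => g z i / (M : ℂ)) r a H‖ := by
  have hM' : (M : ℂ) ≠ 0 := by exact_mod_cast hM.ne'
  have h1 : wsum r g z a H = (M : ℂ) * ws (fun i => g z i / (M : ℂ)) r a H := by
    unfold wsum ws
    rw [Finset.mul_sum]
    refine Finset.sum_congr rfl fun n _ => ?_
    field_simp
  rw [h1, norm_mul, Complex.norm_real, Real.norm_eq_abs, abs_of_pos hM]

lemma wsum_diff {Z : Type} {r : ℕ → ℝ} (hr : ∀ n, |r n| ≤ 1) (G g : Z → ℕ → ℂ) {δ : ℝ}
    (h : ∀ z n, ‖G z n - g z n‖ ≤ δ) (z : Z) (a H : ℕ) :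
    ‖wsum r G z a H‖ ≤ ‖wsum r g z a H‖ + δ * H := by
  have h1 : wsum r G z a H = wsum r g z a H +
      ∑ n ∈ Finset.Ioc a (a + H), (G z (n - a - 1) - g z (n - a - 1)) * ((r n : ℝ) : ℂ) := by
    unfold wsum
    rw [← Finset.sum_add_distrib]
    exact Finset.sum_congr rfl fun n _ => by ring
  rw [h1]
  refine (norm_add_le _ _).trans (add_le_add le_rfl ?_)
  refine (norm_sum_le _ _).trans ?_
  calc ∑ n ∈ Finset.Ioc a (a + H), ‖(G z (n - a - 1) - g z (n - a - 1)) * ((r n : ℝ) : ℂ)‖
      ≤ ∑ _n ∈ Finset.Ioc a (a + H), δ := by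
        refine Finset.sum_le_sum fun n _ => ?_
        rw [norm_mul, Complex.norm_real, Real.norm_eq_abs]
        have h2 := hr n
        have h3 := h z (n - a - 1)
        have h4 := norm_nonneg (G z (n - a - 1) - g z (n - a - 1))
        nlinarith [abs_nonneg (r n)]
    _ = _ := by
        rw [Finset.sum_const, nsmul_eq_mul, Nat.card_Ioc, show a + H - a = H by omega]
        ring

/-- **The main theorem** for good families of functions (compare `U585.SI.good_main`). -/
theorem good_det {S : Set ℕ} {F : ℕ → ℝ} (hF : ∀ n, F n = 1 ∨ F n = -1) (hN : Normal S F)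
    {Z : Type} {𝓕 : Set (Z → ℕ → ℂ)} (h𝓕 : Good 𝓕) : ∀ G ∈ 𝓕, ∀ ε : ℝ, 0 < ε →
      ∃ H₀ : ℕ, ∀ N H : ℕ, H₀ ≤ H → 1 ≤ N →
        ∑ n ∈ Finset.Icc 1 N, (⨆ z, ‖wsum (on S F) G z n H‖) ≤ ε * H * N ∧
        (H ≤ N → ∑ n ∈ Finset.Icc 1 N, (1 / (n : ℝ)) * (⨆ z, ‖wsum (on S F) G z n H‖) ≤
          ε * H * Real.log N) := by
  obtain ⟨g, hg, hdense⟩ := h𝓕.dense
  choose M hM hT using hg
  intro G hG ε hε
  have hr := on_abs (S := S) hF
  obtain ⟨i, hi⟩ := hdense G hG (ε / 2) (by positivity)
  have hMi := hM i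
  have hdiff := fun z a H => wsum_diff hr G (g i) hi z a H
  have hsup : ∀ n H : ℕ, (⨆ z, ‖wsum (on S F) G z n H‖) ≤
      M i * supW (fam (g i) (M i)) (on S F) n H + ε / 2 * H := by
    intro n H
    have hnn := supW_nonneg (fam (g i) (M i)) (on S F) n H
    refine Real.iSup_le (fun z => (hdiff z n H).trans ?_) (by positivity)
    rw [wsum_fam _ _ hMi]
    refine add_le_add (mul_le_mul_of_nonneg_left ?_ hMi.le) le_rfl
    exact le_supW (hT i).bdd hr n H ⟨z, rfl⟩
  obtain ⟨H₁, hH₁⟩ := averages hF hN (hT i) (ε / (4 * M i)) (by positivity)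
  refine ⟨max H₁ 16, fun N H hH hN => ?_⟩
  obtain ⟨h2, h3⟩ := hH₁ N H (by omega) hN
  constructor
  · calc ∑ n ∈ Finset.Icc 1 N, (⨆ z, ‖wsum (on S F) G z n H‖)
        ≤ ∑ n ∈ Finset.Icc 1 N, (M i * supW (fam (g i) (M i)) (on S F) n H +
            ε / 2 * H) := Finset.sum_le_sum fun n _ => hsup n H
      _ = M i * ∑ n ∈ Finset.Icc 1 N, supW (fam (g i) (M i)) (on S F) n H +
            N * (ε / 2 * H) := by
          rw [Finset.sum_add_distrib, ← Finset.mul_sum, Finset.sum_const, nsmul_eq_mul,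
            Nat.card_Icc, Nat.add_sub_cancel]
      _ ≤ M i * (ε / (4 * M i) * H * N) + N * (ε / 2 * H) :=
          add_le_add (mul_le_mul_of_nonneg_left h2 hMi.le) le_rfl
      _ = 3 / 4 * (ε * H * N) := by field_simp; ring
      _ ≤ _ := by
          have : 0 ≤ ε * H * N := by positivity
          linarith
  · intro hHN
    have h4 := h3 hHN
    have hN16 : (16 : ℝ) ≤ N := by exact_mod_cast (by omega : 16 ≤ N)
    have hlog : (2 : ℝ) ≤ Real.log N := by
      rw [Real.le_log_iff_exp_le (by linarith)]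
      have h5 := Real.exp_one_lt_d9
      have h6 : Real.exp 2 = Real.exp 1 * Real.exp 1 := by rw [← Real.exp_add]; norm_num
      rw [h6]
      nlinarith [Real.exp_pos 1]
    have h7 : ∑ n ∈ Finset.Icc 1 N, 1 / (n : ℝ) ≤ 1 + Real.log N := by
      have h8 := harmonic_le_one_add_log N
      rw [harmonic_eq_sum_Icc] at h8
      push_cast at h8
      refine le_trans (le_of_eq ?_) h8
      exact Finset.sum_congr rfl fun n _ => by rw [one_div]
    calc ∑ n ∈ Finset.Icc 1 N, (1 / (n : ℝ)) * (⨆ z, ‖wsum (on S F) G z n H‖)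
        ≤ ∑ n ∈ Finset.Icc 1 N, (M i * ((1 / (n : ℝ)) *
            supW (fam (g i) (M i)) (on S F) n H) + (1 / (n : ℝ)) * (ε / 2 * H)) := by
          refine Finset.sum_le_sum fun n _ => ?_
          have := mul_le_mul_of_nonneg_left (hsup n H) (by positivity : 0 ≤ 1 / (n : ℝ))
          refine this.trans (le_of_eq ?_)
          ring
      _ = M i * ∑ n ∈ Finset.Icc 1 N, (1 / (n : ℝ)) *
            supW (fam (g i) (M i)) (on S F) n H +
            (∑ n ∈ Finset.Icc 1 N, (1 / (n : ℝ))) * (ε / 2 * H) := by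
          rw [Finset.sum_add_distrib, ← Finset.mul_sum, ← Finset.sum_mul]
      _ ≤ M i * (ε / (4 * M i) * H * Real.log N) + (1 + Real.log N) * (ε / 2 * H) :=
          add_le_add (mul_le_mul_of_nonneg_left h4 hMi.le)
            (mul_le_mul_of_nonneg_right h7 (by positivity))
      _ = ε / 4 * H * Real.log N + (1 + Real.log N) * (ε / 2 * H) := by field_simp
      _ ≤ _ := by
          have h9 : 0 ≤ ε * H := by positivity
          nlinarith

end Pool.Agent.U463.NS
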