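import Pool.Agent.U585.SI.Nil2

/-!
Short windows and shift invariant families of sequences with small covering numbers, for the
sequences whose signs are normal relative to a set.
-/

set_option autoImplicit false
set_option linter.unusedSectionVars false

open Filter Topology Finset

namespace Pool.Agent.U463.NS

open Pool.Agent.U585.SI (Tame fam Good sg big big_card log_bound)

open Classical in
/-- the positions in the window which are in the set -/
noncomputable def pat (S : Set ℕ) (k n : ℕ) : Finset ℕ := (Icc 1 k).filter fun h => n + h ∈ S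

open Classical in
/-- the positions in the window which are in the set and have positive sign -/
noncomputable def pos (S : Set ℕ) (F : ℕ → ℝ) (k n : ℕ) : Finset ℕ :=
  (pat S k n).filter fun h => F (n + h) = 1

open Classical in
/-- the function on the set -/
noncomputable def on (S : Set ℕ) (F : ℕ → ℝ) (n : ℕ) : ℝ := if n ∈ S then F n else 0

open Classical in
/-- the signs are normal relative to the set -/
def Normal (S : Set ℕ) (F : ℕ → ℝ) : Prop :=
  ∀ (k : ℕ), ∀ σ ⊆ Icc 1 k, ∀ τ ⊆ σ, Tendsto (fun x : ℕ =>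
    ((((Icc 1 x).filter fun n => pat S k n = σ ∧ pos S F k n = τ).card : ℝ) -
      (1 / 2) ^ σ.card * (((Icc 1 x).filter fun n => pat S k n = σ).card : ℝ)) / x) atTop (𝓝 0)

/-- the sum over the window `(a, a + k]` -/
noncomputable def ws (v : ℕ → ℂ) (r : ℕ → ℝ) (a k : ℕ) : ℂ :=
  ∑ u ∈ Ioc a (a + k), v (u - a - 1) * ((r u : ℝ) : ℂ)

/-- the supremum over the family -/
noncomputable def supW (K : Set (ℕ → ℂ)) (r : ℕ → ℝ) (n H : ℕ) : ℝ := ⨆ v : K, ‖ws v.1 r n H‖

lemma supW_le {K : Set (ℕ → ℂ)} {r : ℕ → ℝ} {n H : ℕ} {B : ℝ} (hB : 0 ≤ B)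
    (h : ∀ v ∈ K, ‖ws v r n H‖ ≤ B) : supW K r n H ≤ B :=
  Real.iSup_le (fun v => h v.1 v.2) hB

lemma supW_nonneg (K : Set (ℕ → ℂ)) (r : ℕ → ℝ) (n H : ℕ) : 0 ≤ supW K r n H :=
  Real.iSup_nonneg fun _ => norm_nonneg _

lemma ws_le {v : ℕ → ℂ} (hv : ∀ i, ‖v i‖ ≤ 1) {r : ℕ → ℝ} (hr : ∀ n, |r n| ≤ 1)
    (a k : ℕ) : ‖ws v r a k‖ ≤ k := by
  unfold ws
  refine (norm_sum_le _ _).trans ?_
  calc ∑ u ∈ Ioc a (a + k), ‖v (u - a - 1) * ((r u : ℝ) : ℂ)‖
      ≤ ∑ _u ∈ Ioc a (a + k), (1 : ℝ) := by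
        refine sum_le_sum fun u _ => ?_
        rw [norm_mul, Complex.norm_real, Real.norm_eq_abs]
        have := hr u
        have := hv (u - a - 1)
        nlinarith [abs_nonneg (r u), norm_nonneg (v (u - a - 1))]
    _ = k := by simp

lemma le_supW {K : Set (ℕ → ℂ)} (hK : ∀ v ∈ K, ∀ i, ‖v i‖ ≤ 1) {r : ℕ → ℝ}
    (hr : ∀ n, |r n| ≤ 1) (n H : ℕ) {v : ℕ → ℂ} (hv : v ∈ K) : ‖ws v r n H‖ ≤ supW K r n H := by
  refine le_ciSup (f := fun v : K => ‖ws v.1 r n H‖) ⟨(H : ℝ), ?_⟩ (⟨v, hv⟩ : K)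
  rintro _ ⟨w, rfl⟩
  exact ws_le (hK w.1 w.2) hr n H

lemma on_abs {S : Set ℕ} {F : ℕ → ℝ} (hF : ∀ n, F n = 1 ∨ F n = -1) (n : ℕ) :
    |on S F n| ≤ 1 := by
  unfold on
  split_ifs
  · rcases hF n with h | h <;> rw [h] <;> norm_num
  · norm_num

/-- the sum over a window is a linear form in the signs -/
lemma ws_eq {S : Set ℕ} {F : ℕ → ℝ} (hF : ∀ n, F n = 1 ∨ F n = -1) (v : ℕ → ℂ) (n k : ℕ) :
    ws v (on S F) n k = ∑ h ∈ pat S k n, v (h - 1) * ((sg (pos S F k n) h : ℝ) : ℂ) := by
  classical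
  unfold ws
  have h1 : ∑ u ∈ Ioc n (n + k), v (u - n - 1) * ((on S F u : ℝ) : ℂ) =
      ∑ h ∈ Icc 1 k, v (h - 1) * ((on S F (n + h) : ℝ) : ℂ) := by
    refine (sum_nbij' (fun h => n + h) (fun u => u - n) ?_ ?_ ?_ ?_ ?_).symm
    · intro h hh
      rw [mem_Icc] at hh
      rw [mem_Ioc]
      omega
    · intro u hu
      rw [mem_Ioc] at hu
      rw [mem_Icc]
      omega
    · intro h _
      omega
    · intro u hu
      rw [mem_Ioc] at hu
      omega
    · intro h _
      rw [show n + h - n - 1 = h - 1 by omega]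
  rw [h1]
  unfold pat
  rw [sum_filter]
  refine sum_congr rfl fun h hh => ?_
  unfold on
  by_cases hS : n + h ∈ S
  · rw [if_pos hS, if_pos hS]
    congr 2
    unfold sg
    have hmem : h ∈ pos S F k n ↔ F (n + h) = 1 := by
      unfold pos pat
      rw [mem_filter, mem_filter]
      exact ⟨fun h' => h'.2, fun h' => ⟨⟨hh, hS⟩, h'⟩⟩
    change F (n + h) = if h ∈ pos S F k n then 1 else -1
    by_cases hp : F (n + h) = 1
    · rw [if_pos (hmem.2 hp), hp]
    · rw [if_neg fun h' => hp (hmem.1 h')]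
      exact (hF (n + h)).resolve_left hp
  · rw [if_neg hS, if_neg hS]
    simp

open Classical in
/-- the bad windows -/
def Bd (S : Set ℕ) (F : ℕ → ℝ) (W : Finset (ℕ → ℂ)) (t : ℝ) (k n : ℕ) : Prop :=
  ∃ w ∈ W, big (fun u => w (u - 1)) t (pat S k n) (pos S F k n)

open Classical in
/-- **Few bad windows.** -/
theorem count_bad {S : Set ℕ} {F : ℕ → ℝ} (hN : Normal S F) {k : ℕ} (hk : 1 ≤ k)
    (W : Finset (ℕ → ℂ)) (hW : ∀ w ∈ W, ∀ i, ‖w i‖ ≤ 1) {t : ℝ} (ht : 0 ≤ t) {c : ℝ} (hc : 0 < c)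
    (hcard : (W.card : ℝ) * (4 * Real.exp (-(t ^ 2 / (8 * k)))) ≤ c / 2) :
    ∀ᶠ x : ℕ in atTop, (((Icc 1 x).filter fun n => Bd S F W t k n).card : ℝ) ≤ c * x := by
  set bad : Finset ℕ → Finset (Finset ℕ) := fun σ =>
    σ.powerset.filter fun τ => ∃ w ∈ W, big (fun u => w (u - 1)) t σ τ with hbad
  set T : Finset (Σ _ : Finset ℕ, Finset ℕ) := (Icc 1 k).powerset.sigma bad with hT
  set η : ℝ := c / (2 * (T.card + 1)) with hη
  have hη0 : 0 < η := by positivity
  have hev : ∀ᶠ x : ℕ in atTop, ∀ p ∈ T,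
      (((Icc 1 x).filter fun n => pat S k n = p.1 ∧ pos S F k n = p.2).card : ℝ) ≤
        (1 / 2) ^ p.1.card * (((Icc 1 x).filter fun n => pat S k n = p.1).card : ℝ) + η * x := by
    rw [Filter.eventually_all_finset]
    intro p hp
    rw [hT, mem_sigma, mem_powerset, hbad, mem_filter, mem_powerset] at hp
    have h1 := (hN k p.1 hp.1 p.2 hp.2.1).eventually (gt_mem_nhds hη0)
    filter_upwards [h1, eventually_gt_atTop 0] with x hx hx0
    have hx0' : (0 : ℝ) < x := by exact_mod_cast hx0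
    rw [div_lt_iff₀ hx0'] at hx
    linarith
  filter_upwards [hev] with x hx
  have hmap : ∀ n ∈ (Icc 1 x).filter (fun n => Bd S F W t k n),
      (⟨pat S k n, pos S F k n⟩ : Σ _ : Finset ℕ, Finset ℕ) ∈ T := by
    intro n hn
    have h1 := (mem_filter.1 hn).2
    rw [hT, mem_sigma]
    refine ⟨?_, ?_⟩
    · rw [mem_powerset]
      exact filter_subset _ _
    · rw [hbad]
      simp only
      rw [mem_filter, mem_powerset]
      exact ⟨filter_subset _ _, h1⟩
  rw [card_eq_sum_card_fiberwise hmap]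
  push_cast
  have hle : ∀ p ∈ T, (((((Icc 1 x).filter fun n => Bd S F W t k n).filter fun n =>
      (⟨pat S k n, pos S F k n⟩ : Σ _ : Finset ℕ, Finset ℕ) = p).card : ℕ) : ℝ) ≤
      (1 / 2) ^ p.1.card * (((Icc 1 x).filter fun n => pat S k n = p.1).card : ℝ) + η * x := by
    intro p hp
    refine le_trans ?_ (hx p hp)
    have h1 : (((Icc 1 x).filter fun n => Bd S F W t k n).filter fun n =>
        (⟨pat S k n, pos S F k n⟩ : Σ _ : Finset ℕ, Finset ℕ) = p) ⊆
        (Icc 1 x).filter fun n => pat S k n = p.1 ∧ pos S F k n = p.2 := by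
      intro n hn
      rw [mem_filter, mem_filter] at hn
      rw [mem_filter]
      refine ⟨hn.1.1, ?_, ?_⟩
      · rw [← hn.2]
      · rw [← hn.2]
    exact_mod_cast card_le_card h1
  refine (sum_le_sum hle).trans ?_
  rw [sum_add_distrib, sum_const, nsmul_eq_mul]
  have h2 : (T.card : ℝ) * (η * x) ≤ c / 2 * x := by
    rw [hη]
    have hx0 : (0 : ℝ) ≤ x := Nat.cast_nonneg x
    have : (T.card : ℝ) * (c / (2 * (T.card + 1)) * x) =
        (T.card / (T.card + 1)) * (c / 2 * x) := by field_simp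
    rw [this]
    have h3 : (T.card : ℝ) / (T.card + 1) ≤ 1 := by
      rw [div_le_one (by positivity)]
      linarith
    calc (T.card : ℝ) / (T.card + 1) * (c / 2 * x) ≤ 1 * (c / 2 * x) :=
          mul_le_mul_of_nonneg_right h3 (by positivity)
      _ = _ := one_mul _
  have h3 : ∑ p ∈ T, (1 / 2 : ℝ) ^ p.1.card *
      (((Icc 1 x).filter fun n => pat S k n = p.1).card : ℝ) ≤ c / 2 * x := by
    rw [hT, sum_sigma]
    have h4 : ∀ σ ∈ (Icc 1 k).powerset, ∑ τ ∈ bad σ, (1 / 2 : ℝ) ^ σ.card *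
        (((Icc 1 x).filter fun n => pat S k n = σ).card : ℝ) ≤
        (c / 2) * (((Icc 1 x).filter fun n => pat S k n = σ).card : ℝ) := by
      intro σ hσ
      rw [mem_powerset] at hσ
      rw [sum_const, nsmul_eq_mul, ← mul_assoc]
      refine mul_le_mul_of_nonneg_right ?_ (Nat.cast_nonneg _)
      have hσk : σ.card ≤ k := by
        have := card_le_card hσ
        simpa using this
      have h5 : ((bad σ).card : ℝ) ≤ W.card * (2 ^ σ.card * (4 * Real.exp (-(t ^ 2 / (8 * k))))) := by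
        have h6 : bad σ ⊆ W.biUnion fun w => σ.powerset.filter (big (fun u => w (u - 1)) t σ) := by
          intro τ hτ
          rw [hbad] at hτ
          simp only at hτ
          rw [mem_filter] at hτ
          obtain ⟨h7, w, hw, h8⟩ := hτ
          rw [mem_biUnion]
          exact ⟨w, hw, mem_filter.2 ⟨h7, h8⟩⟩
        have h7 := (card_le_card h6).trans card_biUnion_le
        have h8 : ((∑ w ∈ W, (σ.powerset.filter (big (fun u => w (u - 1)) t σ)).card : ℕ) : ℝ) ≤
            ∑ _w ∈ W, (2 ^ σ.card * (4 * Real.exp (-(t ^ 2 / (8 * k)))) : ℝ) := by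
          push_cast
          refine sum_le_sum fun w hw => ?_
          have := big_card σ (fun u => w (u - 1)) k hk (fun u => hW w hw _) hσk t ht
          convert this
        rw [sum_const, nsmul_eq_mul] at h8
        exact le_trans (by exact_mod_cast h7) h8
      have h9 : (0 : ℝ) < (1 / 2) ^ σ.card := by positivity
      calc ((bad σ).card : ℝ) * (1 / 2) ^ σ.card ≤
            (W.card * (2 ^ σ.card * (4 * Real.exp (-(t ^ 2 / (8 * k)))))) * (1 / 2) ^ σ.card :=
            mul_le_mul_of_nonneg_right h5 h9.le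
        _ = W.card * (4 * Real.exp (-(t ^ 2 / (8 * k)))) * (2 ^ σ.card * (1 / 2) ^ σ.card) := by
            ring
        _ = W.card * (4 * Real.exp (-(t ^ 2 / (8 * k)))) := by
            rw [← mul_pow]
            norm_num
        _ ≤ _ := hcard
    refine (sum_le_sum h4).trans ?_
    rw [← mul_sum]
    refine mul_le_mul_of_nonneg_left ?_ (by positivity)
    have h5 : ∑ σ ∈ (Icc 1 k).powerset, (((Icc 1 x).filter fun n => pat S k n = σ).card : ℝ) =
        ((Icc 1 x).card : ℝ) := by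
      have h6 : ∀ n ∈ Icc 1 x, pat S k n ∈ (Icc 1 k).powerset := fun n _ => by
        rw [mem_powerset]
        exact filter_subset _ _
      rw [card_eq_sum_card_fiberwise h6]
      push_cast
      rfl
    rw [h5]
    simp
  linarith

/-- splitting into blocks -/
lemma ws_blocks (v : ℕ → ℂ) (r : ℕ → ℝ) (n k q : ℕ) :
    ws v r n (q * k) = ∑ b ∈ range q, ws (fun i => v (i + b * k)) r (n + b * k) k := by
  induction q with
  | zero => simp [ws]
  | succ q ih =>
    rw [sum_range_succ, ← ih]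
    unfold ws
    have h1 : n + (q + 1) * k = n + q * k + k := by ring
    rw [h1, ← sum_Ioc_consecutive (fun u => v (u - n - 1) * ((r u : ℝ) : ℂ))
      (show n ≤ n + q * k by omega) (show n + q * k ≤ n + q * k + k by omega)]
    congr 1
    refine sum_congr rfl fun u hu => ?_
    rw [mem_Ioc] at hu
    beta_reduce
    rw [show u - (n + q * k) - 1 + q * k = u - n - 1 by omega]

open Classical in
/-- **The windows of all lengths.** -/
theorem window_bound {S : Set ℕ} {F : ℕ → ℝ} (hF : ∀ n, F n = 1 ∨ F n = -1) {K : Set (ℕ → ℂ)}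
    (hK : Tame K) {W : Finset (ℕ → ℂ)} (_hW1 : ∀ w ∈ W, ∀ i, ‖w i‖ ≤ 1) {k : ℕ} (hk : 1 ≤ k)
    {δ t : ℝ} (hδ : 0 ≤ δ) (ht : 0 ≤ t) (hW : ∀ v ∈ K, ∃ w ∈ W, ∀ i < k, ‖v i - w i‖ ≤ δ)
    (n H : ℕ) : supW K (on S F) n H ≤ k + (t + δ * k) * ((H / k : ℕ) : ℝ) +
      k * (((range (H / k)).filter fun b => Bd S F W t k (n + b * k)).card : ℝ) := by
  have hr := on_abs (S := S) hF
  have hblock : ∀ v ∈ K, ∀ m, ‖ws v (on S F) m k‖ ≤
      (t + δ * k) + (if Bd S F W t k m then (k : ℝ) else 0) := by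
    intro v hv m
    by_cases hb : Bd S F W t k m
    · rw [if_pos hb]
      have := ws_le (hK.bdd v hv) hr m k
      have : 0 ≤ t + δ * k := by positivity
      linarith
    · rw [if_neg hb, add_zero]
      obtain ⟨w, hw, hvw⟩ := hW v hv
      have h1 : ‖ws w (on S F) m k‖ ≤ t := by
        by_contra hcon
        push Not at hcon
        apply hb
        refine ⟨w, hw, ?_⟩
        unfold big
        rw [ws_eq hF] at hcon
        exact hcon
      have h2 : ws v (on S F) m k = ws w (on S F) m k +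
          ∑ u ∈ Ioc m (m + k), (v (u - m - 1) - w (u - m - 1)) * ((on S F u : ℝ) : ℂ) := by
        unfold ws
        rw [← sum_add_distrib]
        exact sum_congr rfl fun u _ => by ring
      rw [h2]
      refine (norm_add_le _ _).trans (add_le_add h1 ?_)
      refine (norm_sum_le _ _).trans ?_
      calc ∑ u ∈ Ioc m (m + k), ‖(v (u - m - 1) - w (u - m - 1)) * ((on S F u : ℝ) : ℂ)‖
          ≤ ∑ _u ∈ Ioc m (m + k), δ := by
            refine sum_le_sum fun u hu => ?_
            rw [mem_Ioc] at hu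
            rw [norm_mul, Complex.norm_real, Real.norm_eq_abs]
            have h3 := hvw (u - m - 1) (by omega)
            have h4 := hr u
            nlinarith [abs_nonneg (on S F u), norm_nonneg (v (u - m - 1) - w (u - m - 1))]
        _ = δ * k := by
            rw [sum_const, nsmul_eq_mul, Nat.card_Ioc, show m + k - m = k by omega]
            ring
  refine supW_le (by positivity) fun v hv => ?_
  obtain ⟨q, hq⟩ : ∃ q, q = H / k := ⟨_, rfl⟩
  rw [← hq]
  have hqH : q * k ≤ H := by rw [hq]; exact Nat.div_mul_le_self H k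
  have hrem : H - q * k ≤ k := by
    have h1 := Nat.div_add_mod H k
    have h2 := Nat.mod_lt H hk
    rw [← hq, mul_comm] at h1
    omega
  have hsplit : ws v (on S F) n H = ws v (on S F) n (q * k) +
      ∑ u ∈ Ioc (n + q * k) (n + H), v (u - n - 1) * ((on S F u : ℝ) : ℂ) := by
    unfold ws
    exact (sum_Ioc_consecutive _ (by omega) (by omega)).symm
  rw [hsplit]
  refine (norm_add_le _ _).trans ?_
  have h1 : ‖∑ u ∈ Ioc (n + q * k) (n + H), v (u - n - 1) * ((on S F u : ℝ) : ℂ)‖ ≤ k := by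
    refine (norm_sum_le _ _).trans ?_
    calc ∑ u ∈ Ioc (n + q * k) (n + H), ‖v (u - n - 1) * ((on S F u : ℝ) : ℂ)‖
        ≤ ∑ _u ∈ Ioc (n + q * k) (n + H), (1 : ℝ) := by
          refine sum_le_sum fun u _ => ?_
          rw [norm_mul, Complex.norm_real, Real.norm_eq_abs]
          have := hr u
          have := hK.bdd v hv (u - n - 1)
          nlinarith [abs_nonneg (on S F u), norm_nonneg (v (u - n - 1))]
      _ = ((n + H - (n + q * k) : ℕ) : ℝ) := by simp
      _ ≤ k := by exact_mod_cast (by omega : n + H - (n + q * k) ≤ k)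
  have h2 : ‖ws v (on S F) n (q * k)‖ ≤ (t + δ * k) * (q : ℝ) +
      k * (((range q).filter fun b => Bd S F W t k (n + b * k)).card : ℝ) := by
    rw [ws_blocks]
    refine (norm_sum_le _ _).trans ?_
    refine (sum_le_sum fun b _ => hblock _ (hK.shift_n hv (b * k)) (n + b * k)).trans ?_
    rw [sum_add_distrib, sum_const, card_range, nsmul_eq_mul, ← sum_filter, sum_const,
      nsmul_eq_mul]
    refine le_of_eq ?_
    ring
  linarith

end Pool.Agent.U463.NS
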