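import Pool.Agent.U463.NS.Avg
import Pool.Agent.U463.RB.NPat

/-!
All multiplicative functions near random multiplicative functions are normal relative to given sets.
-/

set_option autoImplicit false
set_option linter.unusedSectionVars false

open Filter Topology Finset MeasureTheory ProbabilityTheory

namespace Pool.Agent.U463.NS

open Pool.Agent.U585.SI (Tame fam Good sg)
open Pool.Agent.U463.RB (Thin)
open Pool.Agent.W257.FS (SignMul)
open Pool.Agent.TH573.JF (rf)

open Classical in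
/-- the weights -/
noncomputable def wt (S : Set ℕ) (k : ℕ) (σ : Finset ℕ) (n : ℕ) : ℂ :=
  if pat S k n = σ then 1 else 0

/-- the countably many classes of weights, each with at most one element -/
def cls (S : ℕ → Set ℕ) (j : ℕ) : Set (ℕ → ℂ) :=
  {v | ∃ p : ℕ × ℕ × Finset ℕ, Encodable.encode p = j ∧ v = wt (S p.1) p.2.1 p.2.2}

theorem thin_cls (S : ℕ → Set ℕ) (j : ℕ) : Thin (cls S j) := by
  classical
  have hb : ∀ v ∈ cls S j, ∀ n, ‖v n‖ ≤ 1 := by
    rintro v ⟨p, -, rfl⟩ n
    unfold wt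
    split_ifs <;> simp
  refine ⟨hb, fun δ hδ D => ?_⟩
  filter_upwards [eventually_ge_atTop 1] with x hx
  have hx' : (1 : ℝ) ≤ x := by exact_mod_cast hx
  have h01 : ((0 : ℝ)) ^ D ≤ x := by
    rcases Nat.eq_zero_or_pos D with h | h
    · rw [h, pow_zero]; exact hx'
    · rw [zero_pow (by omega)]; linarith
  by_cases he : (cls S j).Nonempty
  · obtain ⟨v0, hv0⟩ := he
    refine ⟨{v0}, by simpa using h01, fun w hw => ?_, fun v hv => ⟨v0, mem_singleton_self _, ?_⟩⟩
    · rw [mem_singleton] at hw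
      subst hw
      exact hb _ hv0
    · have : v = v0 := by
        obtain ⟨p, hp, rfl⟩ := hv
        obtain ⟨p', hp', rfl⟩ := hv0
        have : p = p' := Encodable.encode_injective (hp.trans hp'.symm)
        rw [this]
      rw [this]
      simp only [sub_self, norm_zero, sum_const_zero]
      positivity
  · rw [Set.not_nonempty_iff_eq_empty] at he
    exact ⟨∅, by simpa using h01, by simp, fun v hv => by rw [he] at hv; exact absurd hv (by simp)⟩

/-- fair coins relative to the weights give normality -/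
theorem normal_of {S : Set ℕ} {F : ℕ → ℝ} (hF : ∀ n, F n = 1 ∨ F n = -1)
    (h : ∀ (k : ℕ) (σ : Finset ℕ) (Z : Finset (Fin 1 × ℕ)) (t : Fin 1 × ℕ → ℝ),
      (∀ z ∈ Z, t z = 1 ∨ t z = -1) → open Classical in Tendsto (fun x : ℕ =>
        (∑ n ∈ (Icc 1 x).filter (fun n => ∀ z ∈ Z, F (n + z.2) = t z), wt S k σ n -
        (1 / 2) ^ Z.card * ∑ n ∈ Icc 1 x, wt S k σ n) / (x : ℂ)) atTop (𝓝 0)) :
    Normal S F := by
  classical
  intro k σ hσ τ hτ
  have h1 := h k σ (σ.image fun j => ((0 : Fin 1), j)) (fun z => sg τ z.2) (by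
    intro z _
    unfold sg
    split_ifs
    · exact Or.inl rfl
    · exact Or.inr rfl)
  have hcard : (σ.image fun j => ((0 : Fin 1), j)).card = σ.card :=
    card_image_of_injective _ fun a b hab => by simpa using hab
  rw [hcard] at h1
  have hre := (Complex.continuous_re.tendsto 0).comp h1
  rw [Complex.zero_re] at hre
  refine hre.congr fun x => ?_
  simp only [Function.comp_apply]
  have e1 : ∑ n ∈ (Icc 1 x).filter (fun n => ∀ z ∈ σ.image fun j => ((0 : Fin 1), j),
      F (n + z.2) = sg τ z.2), wt S k σ n =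
      ((((Icc 1 x).filter fun n => pat S k n = σ ∧ pos S F k n = τ).card : ℕ) : ℂ) := by
    unfold wt
    rw [sum_ite, sum_const_zero, add_zero, sum_const, nsmul_eq_mul, mul_one, filter_filter]
    congr 2
    refine filter_congr fun n hn => ?_
    constructor
    · rintro ⟨h2, h3⟩
      refine ⟨h3, ?_⟩
      unfold pos
      rw [h3]
      ext j
      rw [mem_filter]
      constructor
      · rintro ⟨hj, hFj⟩
        have h4 := h2 (0, j) (mem_image_of_mem _ hj)
        by_contra hjt
        unfold sg at h4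
        simp only at h4
        rw [if_neg hjt, hFj] at h4
        norm_num at h4
      · intro hj
        have h4 := h2 (0, j) (mem_image_of_mem _ (hτ hj))
        unfold sg at h4
        simp only at h4
        rw [if_pos hj] at h4
        exact ⟨hτ hj, h4⟩
    · rintro ⟨h2, h3⟩
      refine ⟨?_, h2⟩
      intro z hz
      obtain ⟨j, hj, rfl⟩ := mem_image.1 hz
      simp only
      unfold sg
      unfold pos at h3
      rw [h2] at h3
      by_cases hjt : j ∈ τ
      · rw [if_pos hjt]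
        rw [← h3, mem_filter] at hjt
        exact hjt.2
      · rw [if_neg hjt]
        refine (hF (n + j)).resolve_left fun h4 => hjt ?_
        rw [← h3, mem_filter]
        exact ⟨hj, h4⟩
  have e2 : ∑ n ∈ Icc 1 x, wt S k σ n =
      ((((Icc 1 x).filter fun n => pat S k n = σ).card : ℕ) : ℂ) := by
    unfold wt
    rw [sum_ite, sum_const_zero, add_zero, sum_const, nsmul_eq_mul, mul_one]
  rw [e1, e2]
  have e3 : (((((Icc 1 x).filter fun n => pat S k n = σ ∧ pos S F k n = τ).card : ℕ) : ℂ) -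
      (1 / 2) ^ σ.card * ((((Icc 1 x).filter fun n => pat S k n = σ).card : ℕ) : ℂ)) / (x : ℂ) =
      ((((((Icc 1 x).filter fun n => pat S k n = σ ∧ pos S F k n = τ).card : ℝ) -
        (1 / 2) ^ σ.card * (((Icc 1 x).filter fun n => pat S k n = σ).card : ℝ)) / x : ℝ) : ℂ) := by
    push_cast
    ring
  rw [e3, Complex.ofReal_re]

open Classical in
/-- **All functions near random functions are normal.** -/
theorem normal_near {ι Ω : Type} [MeasurableSpace Ω] {P : Measure Ω} [IsProbabilityMeasure P]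
    [Countable ι] {e : ι → ℕ → Ω → ℝ}
    (hm : ∀ j p, Measurable (e j p)) (he : ∀ j p ω, e j p ω = 1 ∨ e j p ω = -1)
    (hind : iIndepFun (fun (p : ℕ) (ω : Ω) (i : ι) => e i p ω) P)
    (hW : Pool.Agent.U463.RB.Win P e)
    {g : ι → ℕ → ℝ} (hg : ∀ i, SignMul (g i)) (S : ℕ → Set ℕ) :
    ∀ᵐ ω ∂P, ∀ A : Finset ι, A.Nonempty → ∀ F : ℕ → ℝ, SignMul F →
      (∃ (q : ℕ) (χ : DirichletCharacter ℂ q), 1 ≤ q ∧
        Tendsto (fun X : ℕ => (∑ p ∈ (Icc 1 X).filter (fun p => p.Prime ∧
          (F p : ℂ) ≠ ((∏ i ∈ A, rf (g i) (fun p => e i p ω) p : ℝ) : ℂ) *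
            χ (p : ZMod q)), Real.log p / p) / Real.log X) atTop (𝓝 0)) →
      ∀ s, Normal (S s) (fun n => if n = 0 then 1 else F n) := by
  have h1 := Pool.Agent.U463.RB.fair (P := P) hm he hind hW hg (V := cls S) (thin_cls S)
  filter_upwards [h1] with ω hω A hA F hF ⟨q, χ, hq, hlim⟩ s
  have hfS : ∀ i, SignMul (rf (g i) (fun p => e i p ω)) := fun i =>
    Pool.Agent.TH573.JF.rf_signMul (hg i) (fun p => he i p ω)
  obtain ⟨f, hf⟩ : ∃ f : ι → ℕ → ℝ, f = fun i => rf (g i) (fun p => e i p ω) := ⟨_, rfl⟩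
  have hfS' : ∀ i, SignMul (f i) := by rw [hf]; exact hfS
  have hprod : SignMul (fun n => ∏ i ∈ A, f i n) :=
    Pool.Agent.TH573.JF.signMul_prod A f hfS'
  have hsq : ∀ n, 1 ≤ n → (∏ i ∈ A, f i n) * (∏ i ∈ A, f i n) = 1 := by
    intro n hn
    rcases hprod.val n hn with h | h
    · have h' : ∏ i ∈ A, f i n = 1 := h
      rw [h']; norm_num
    · have h' : ∏ i ∈ A, f i n = -1 := h
      rw [h']; norm_num
  have hB : ∀ T : Finset (Fin 1), T.Nonempty →
      (Pool.Agent.TH573.JF.BB (fun _ : Fin 1 => A) T).Nonempty := by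
    intro T hT
    obtain ⟨i, hi⟩ := hA
    refine ⟨i, ?_⟩
    unfold Pool.Agent.TH573.JF.BB
    rw [mem_filter, mem_biUnion]
    refine ⟨⟨0, mem_univ _, hi⟩, ?_⟩
    have hT1 : T = {0} := by
      obtain ⟨a, ha⟩ := hT
      ext b
      rw [mem_singleton]
      exact ⟨fun _ => Subsingleton.elim _ _, fun _ => by rwa [Subsingleton.elim b a]⟩
    rw [hT1, filter_singleton, if_pos hi, card_singleton]
    exact odd_one
  have hF0 : ∀ n, (fun n => if n = 0 then (1 : ℝ) else F n) n = 1 ∨
      (fun n => if n = 0 then (1 : ℝ) else F n) n = -1 := by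
    intro n
    beta_reduce
    split_ifs with h
    · exact Or.inl rfl
    · exact hF.val n (by omega)
  refine normal_of hF0 fun k σ Z t ht => ?_
  refine hω 1 (fun _ => A) hB (fun _ n => (∏ i ∈ A, f i n) * F n)
    (fun _ => Pool.Agent.TH573.JF.signMul_mul hprod hF) (fun _ => ?_)
    (fun _ n => if n = 0 then 1 else F n) (fun _ n hn => ?_)
    (Encodable.encode ((s, k, σ) : ℕ × ℕ × Finset ℕ)) (wt (S s) k σ) ⟨(s, k, σ), rfl, rfl⟩ Z t ht
  · refine ⟨q, χ, hq, ?_⟩
    have hlim' : Tendsto (fun X : ℕ => (∑ p ∈ (Icc 1 X).filter (fun p => p.Prime ∧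
        (F p : ℂ) ≠ ((∏ i ∈ A, f i p : ℝ) : ℂ) * χ (p : ZMod q)), Real.log p / p) /
          Real.log X) atTop (𝓝 0) := by
      rw [hf]
      exact hlim
    refine hlim'.congr fun X => ?_
    congr 1
    refine sum_congr ?_ fun _ _ => rfl
    ext p
    simp only [mem_filter, mem_Icc]
    refine and_congr_right fun hp => and_congr_right fun _ => not_congr ?_
    have h2 : ((∏ i ∈ A, f i p : ℝ) : ℂ) * ((∏ i ∈ A, f i p : ℝ) : ℂ) = 1 := by
      rw [← Complex.ofReal_mul, hsq p hp.1, Complex.ofReal_one]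
    constructor
    · intro h
      rw [Complex.ofReal_mul, h, ← mul_assoc, h2, one_mul]
    · intro h
      rw [Complex.ofReal_mul] at h
      calc (F p : ℂ) = (((∏ i ∈ A, f i p : ℝ) : ℂ) * ((∏ i ∈ A, f i p : ℝ) : ℂ)) * F p := by
            rw [h2, one_mul]
        _ = ((∏ i ∈ A, f i p : ℝ) : ℂ) * (((∏ i ∈ A, f i p : ℝ) : ℂ) * F p) := by ring
        _ = _ := by rw [h]
  · beta_reduce
    rw [if_neg (by omega)]
    have h4 : ∏ i ∈ A, rf (g i) (fun p => e i p ω) n = ∏ i ∈ A, f i n := by rw [hf]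
    rw [h4, ← mul_assoc, hsq n hn, one_mul]

end Pool.Agent.U463.NS
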